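import Pool.Agent.L5helper54.BA.Hier

set_option autoImplicit false
open Cardinal Set

namespace Pool.L5helper54.BA

universe u

/-- shapes of Borel codes: `leaf` = open set, `node f` = complement of a countable union -/
inductive Shape : Type
  | leaf : Shape
  | node (f : ℕ → Shape) : Shape

/-- the coordinates of a code of shape `t` -/
def Coord : Shape → Type
  | Shape.leaf => ℕ
  | Shape.node f => Σ n, Coord (f n)

/-- the set coded by `c`; `B n` are the basic sets -/
def evalC {Z : Type u} (B : ℕ → Set Z) : (t : Shape) → (Coord t → Prop) → Set Z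
  | Shape.leaf, c => {z | ∃ n : ℕ, c n ∧ z ∈ B n}
  | Shape.node f, c => {z | ¬ ∃ n, z ∈ evalC B (f n) (fun j => c ⟨n, j⟩)}

end Pool.L5helper54.BA
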