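import Mathlib

set_option autoImplicit false
open Cardinal Set

namespace Pool.L5helper54.BA

universe u

/-- A σ-ideal of subsets of `S` that contains the singletons and is `ω₁`-saturated (every disjoint
family of sets outside the ideal is countable); it need not be proper. -/
structure SatIdeal {S : Type u} (I : Set (Set S)) : Prop where
  mono : ∀ T ∈ I, ∀ T' ⊆ T, T' ∈ I
  cunion : ∀ T : ℕ → Set S, (∀ n, T n ∈ I) → (⋃ n, T n) ∈ I
  single : ∀ s, {s} ∈ I
  sat : ∀ 𝒟 : Set (Set S), 𝒟.PairwiseDisjoint id → (∀ D ∈ 𝒟, D ∉ I) → 𝒟.Countable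

/-- `J` witnesses that the cardinal `#ι` is *quasi-measurable*: `#ι` is uncountable and `J` is a
proper ideal of subsets of `ι` that contains the singletons, is closed under unions of fewer than
`#ι` members, and is `ω₁`-saturated. -/
structure QM (ι : Type u) (J : Set (Set ι)) : Prop where
  uncountable : ℵ₀ < #ι
  mono : ∀ T ∈ J, ∀ T' ⊆ T, T' ∈ J
  single : ∀ s, {s} ∈ J
  proper : (univ : Set ι) ∉ J
  complete : ∀ 𝒟 : Set (Set ι), #𝒟 < #ι → (∀ D ∈ 𝒟, D ∈ J) → ⋃₀ 𝒟 ∈ J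
  sat : ∀ 𝒟 : Set (Set ι), 𝒟.PairwiseDisjoint id → (∀ D ∈ 𝒟, D ∉ J) → 𝒟.Countable

/-- A hierarchy of classes of subsets of `X`, indexed by the countable ordinals. -/
structure Hier {X : Type u} (C : Ordinal.{0} → Set (Set X)) : Prop where
  mono : ∀ α β : Ordinal.{0}, α ≤ β → C α ⊆ C β
  union : ∀ (A : ℕ → Set X) (α : Ordinal.{0}), α < (aleph 1).ord →
    (∀ n, A n ∈ C α) → (⋃ n, A n) ∈ C (α + 2)
  compl : ∀ (A : Set X) (α : Ordinal.{0}), A ∈ C α → Aᶜ ∈ C α

end Pool.L5helper54.BA
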