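import Pool.Agent.L5helper54.BA.Defs

set_option autoImplicit false
open Cardinal Set

namespace Pool.L5helper54.BA

universe u

theorem sup_lt {ι : Type*} [Countable ι] (f : ι → Ordinal.{0})
    (h : ∀ n, f n < (aleph 1).ord) : ∃ α < (aleph 1).ord, ∀ n, f n ≤ α := by
  rw [ord_aleph] at *
  by_cases hne : Nonempty ι
  · obtain ⟨g, hg⟩ := exists_surjective_nat ι
    refine ⟨⨆ n, f (g n), Ordinal.iSup_lt_omega_one (fun n => h (g n)), fun n => ?_⟩
    obtain ⟨m, rfl⟩ := hg n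
    exact Ordinal.le_iSup (fun n => f (g n)) m
  · exact ⟨0, Ordinal.omega_pos 1, fun n => (hne ⟨n⟩).elim⟩

theorem add_two_lt {α : Ordinal.{0}} (h : α < (aleph 1).ord) : α + 2 < (aleph 1).ord := by
  have hl : Order.IsSuccLimit ((aleph 1).ord : Ordinal.{0}) :=
    isSuccLimit_ord (aleph0_le_aleph 1)
  have : α + 2 = Order.succ (Order.succ α) := by
    rw [Order.succ_eq_add_one, Order.succ_eq_add_one, add_assoc]; norm_num
  rw [this]
  exact hl.succ_lt (hl.succ_lt h)

/-- countable unions, indexed by a countable set of sets -/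
theorem Hier.union_mem {X : Type u} {C : Ordinal.{0} → Set (Set X)} (hC : Hier C)
    {ι : Type*} [Countable ι] [Nonempty ι] (A : ι → Set X) {α : Ordinal.{0}}
    (hα : α < (aleph 1).ord) (h : ∀ i, A i ∈ C α) : (⋃ i, A i) ∈ C (α + 2) := by
  obtain ⟨g, hg⟩ := exists_surjective_nat ι
  rw [← hg.iUnion_comp]
  exact hC.union _ _ hα fun n => h _

theorem Hier.inter_mem {X : Type u} {C : Ordinal.{0} → Set (Set X)} (hC : Hier C)
    {ι : Type*} [Countable ι] [Nonempty ι] (A : ι → Set X) {α : Ordinal.{0}}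
    (hα : α < (aleph 1).ord) (h : ∀ i, A i ∈ C α) : (⋂ i, A i) ∈ C (α + 2) := by
  have := hC.compl _ _ (hC.union_mem (fun i => (A i)ᶜ) hα fun i => hC.compl _ _ (h i))
  simpa [compl_iUnion] using this

theorem Hier.union2 {X : Type u} {C : Ordinal.{0} → Set (Set X)} (hC : Hier C)
    {A B : Set X} {α : Ordinal.{0}}
    (hα : α < (aleph 1).ord) (h : A ∈ C α) (h' : B ∈ C α) : A ∪ B ∈ C (α + 2) := by
  have := hC.union_mem (fun b : Bool => if b then A else B) hα (by intro b; cases b <;> simp [h, h'])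
  convert this using 1
  ext x; simp [or_comm]

/-- The union of the members of the family with index in `T`. -/
def U {X : Type u} {S : Type u} (F : S → Set X) (T : Set S) : Set X := ⋃ s ∈ T, F s

theorem mem_U {X : Type u} {S : Type u} {F : S → Set X} {T : Set S} {x : X} :
    x ∈ U F T ↔ ∃ s ∈ T, x ∈ F s := by simp [U]

theorem U_iUnion {X : Type u} {S : Type u} (F : S → Set X) {ι : Type*} (T : ι → Set S) :
    U F (⋃ i, T i) = ⋃ i, U F (T i) := by
  ext x
  simp only [mem_U, mem_iUnion]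
  constructor
  · rintro ⟨s, ⟨i, hi⟩, hx⟩; exact ⟨i, s, hi, hx⟩
  · rintro ⟨i, s, hi, hx⟩; exact ⟨s, ⟨i, hi⟩, hx⟩

theorem U_union {X : Type u} {S : Type u} (F : S → Set X) (T T' : Set S) :
    U F (T ∪ T') = U F T ∪ U F T' := by
  ext x
  simp only [mem_U, mem_union]
  constructor
  · rintro ⟨s, h | h, hx⟩
    · exact Or.inl ⟨s, h, hx⟩
    · exact Or.inr ⟨s, h, hx⟩
  · rintro (⟨s, h, hx⟩ | ⟨s, h, hx⟩)
    · exact ⟨s, Or.inl h, hx⟩
    · exact ⟨s, Or.inr h, hx⟩

/-- The ideal of the index sets over which the family is of bounded class. -/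
def BdIdeal {X : Type u} {S : Type u} (F : S → Set X) (C : Ordinal.{0} → Set (Set X)) :
    Set (Set S) :=
  {T : Set S | ∃ α < (aleph 1).ord, ∀ T' ⊆ T, U F T' ∈ C α}

theorem bd_cunion {X : Type u} {S : Type u} (F : S → Set X)
    {C : Ordinal.{0} → Set (Set X)} (hC : Hier C) (T : ℕ → Set S)
    (h : ∀ n, T n ∈ BdIdeal F C) : (⋃ n, T n) ∈ BdIdeal F C := by
  choose α hα hT using h
  obtain ⟨β, hβ, hle⟩ := sup_lt α hα
  refine ⟨β + 2, add_two_lt hβ, fun T' hT' => ?_⟩
  have : T' = ⋃ n, (T' ∩ T n) := by rw [← inter_iUnion, inter_eq_left.2 hT']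
  rw [this, U_iUnion]
  exact hC.union _ _ hβ fun n => hC.mono _ _ (hle n) (hT n _ inter_subset_right)

/-- (6b) -/
theorem satIdeal_of_family {X : Type u} {S : Type u} (F : S → Set X)
    {C : Ordinal.{0} → Set (Set X)} (hC : Hier C)
    (bor : ∀ T : Set S, ∃ α < (aleph 1).ord, U F T ∈ C α)
    (mb : ∀ (T : (Iio ((aleph 1).ord : Ordinal.{0})) → Set S),
      Pairwise (Function.onFun Disjoint T) → ∃ α < (aleph 1).ord, ∀ i, U F (T i) ∈ C α) :
    SatIdeal (BdIdeal F C) := by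
  refine ⟨?_, fun T hT => bd_cunion F hC T hT, ?_, ?_⟩
  · rintro T ⟨α, hα, hT⟩ T' hT'
    exact ⟨α, hα, fun T'' h => hT _ (h.trans hT')⟩
  · intro s
    obtain ⟨α, hα, h1⟩ := bor {s}
    obtain ⟨β, hβ, h2⟩ := bor ∅
    refine ⟨max α β, max_lt hα hβ, fun T' hT' => ?_⟩
    rcases subset_singleton_iff_eq.1 hT' with rfl | rfl
    · exact hC.mono _ _ (le_max_right _ _) h2
    · exact hC.mono _ _ (le_max_left _ _) h1
  · intro 𝒟 hd hD
    by_contra hcount
    -- choose an `ω₁`-sequence of distinct members of `𝒟`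
    have h1 : (aleph 1 : Cardinal.{u}) ≤ #𝒟 := by
      rw [← succ_aleph0, Order.succ_le_iff]
      by_contra hle
      exact hcount (Cardinal.le_aleph0_iff_set_countable.1 (not_lt.1 hle))
    have h2 : Cardinal.lift.{u} #(((aleph 1).ord : Ordinal.{0}).ToType) ≤ Cardinal.lift.{0} #𝒟 := by
      rw [mk_ord_toType]; simpa using h1
    obtain ⟨e⟩ := Cardinal.lift_mk_le'.1 h2
    let e' : Iio ((aleph 1).ord : Ordinal.{0}) → 𝒟 := fun i => e (Ordinal.ToType.mk i)
    have he' : Function.Injective e' := e.injective.comp (Ordinal.ToType.mk).injective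
    have h3 : ∀ i : Iio ((aleph 1).ord : Ordinal.{0}), ∃ T' ⊆ (e' i : Set S), U F T' ∉ C i.1 := by
      intro i
      by_contra hno
      push Not at hno
      exact hD _ (e' i).2 ⟨i.1, i.2, hno⟩
    choose T hTs hTn using h3
    obtain ⟨α, hα, hall⟩ := mb T (by
      intro i j hij
      have : (e' i : Set S) ≠ e' j := fun h => hij (he' (Subtype.ext h))
      exact Disjoint.mono (hTs i) (hTs j) (hd (e' i).2 (e' j).2 this))
    exact hTn ⟨α, hα⟩ (hall ⟨α, hα⟩)

/-- The class of level `≤ α` made from the hierarchy `S` of the frozen statement: the members of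
`S γ`, `1 ≤ γ ≤ α`, `γ` countable, and their complements. -/
def CC {X : Type u} (S : Ordinal.{0} → Set (Set X)) (α : Ordinal.{0}) : Set (Set X) :=
  {A : Set X | ∃ γ : Ordinal.{0}, 1 ≤ γ ∧ γ ≤ α ∧ γ < (aleph 1).ord ∧ (A ∈ S γ ∨ Aᶜ ∈ S γ)}

/-- `S` is the Borel hierarchy `Σ⁰_α`, `1 ≤ α < ω₁`, of the space `X`, as in the frozen statement. -/
structure IsHier {X : Type u} [TopologicalSpace X] (S : Ordinal.{0} → Set (Set X)) : Prop where
  one : S 1 = {U : Set X | IsOpen U}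
  step : ∀ α : Ordinal.{0}, 1 < α → α < (aleph 1).ord →
    S α = {A : Set X | ∃ f : ℕ → Set X, A = (⋃ n, f n) ∧
      ∀ n, ∃ β : Ordinal.{0}, 1 ≤ β ∧ β < α ∧ (f n)ᶜ ∈ S β}

end Pool.L5helper54.BA
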