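import Pool.Agent.L5helper54.BA.Main

set_option autoImplicit false
open Cardinal Set

namespace Pool.L5helper54.BA

universe u

open Pool.L5helper52.BA (tree_lemma exists_free disjoint_union)
open Pool.Agent.L5helper67.BA (exists_sigma_disjoint)

theorem open_CC {X : Type u} [TopologicalSpace X] {S : Ordinal.{0} → Set (Set X)}
    (hS : IsHier S) {O : Set X} (hO : IsOpen O) : O ∈ CC S 1 :=
  ⟨1, le_rfl, le_rfl, Pool.L5helper52.BA.one_lt, Or.inl (by rw [hS.one]; exact hO)⟩

theorem Hier.inter2 {X : Type u} {C : Ordinal.{0} → Set (Set X)} (hC : Hier C)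
    {A B : Set X} {α : Ordinal.{0}}
    (hα : α < (aleph 1).ord) (h : A ∈ C α) (h' : B ∈ C α) : A ∩ B ∈ C (α + 2) := by
  have := hC.compl _ _ (hC.union2 hα (hC.compl _ _ h) (hC.compl _ _ h'))
  simpa [compl_union] using this

/-- σ-local version: `X` is a union of countably many Borel sets `Y n` such that every point of
`Y n` has an open neighbourhood `V` for which all sets `F s ∩ V ∩ Y n` have density `≤ lam` for some
`lam < κ₀`; here `κ₀` is quasi-measurable and a lower bound of the quasi-measurable cardinals which are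
at most the continuum and at most the number of members. -/
theorem bounded_of_locally_small {X : Type u} [MetricSpace X] {S₀ : Type u} (F : S₀ → Set X)
    (pf : ∀ x, {s | x ∈ F s}.Finite) {S : Ordinal.{0} → Set (Set X)} (hS : IsHier S)
    (bor : ∀ T : Set S₀, ∃ α < (aleph 1).ord, U F T ∈ CC S α)
    {ι₀ : Type u} {J₀ : Set (Set ι₀)} (h₀ : QM ι₀ J₀)
    (hmin : ∀ (ι : Type u) (J : Set (Set ι)), QM ι J → #ι ≤ continuum → #ι ≤ #S₀ → #ι₀ ≤ #ι)
    (Y : ℕ → Set X) (hY : ∀ n, ∃ α < (aleph 1).ord, Y n ∈ CC S α) (hYc : ∀ x, ∃ n, x ∈ Y n)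
    (hloc : ∀ n, ∀ x ∈ Y n, ∃ V : Set X, IsOpen V ∧ x ∈ V ∧ ∃ lam < #ι₀,
      ∀ s, ∃ D : Set X, #D ≤ lam ∧ F s ∩ V ∩ Y n ⊆ closure D) :
    (Set.univ : Set S₀) ∈ BdIdeal F (CC S) := by
  classical
  have hC := hS.hier
  have hreg := h₀.isRegular
  have h01 : aleph 1 < #ι₀ := by
    rw [← succ_aleph0]
    exact lt_of_le_of_ne (Order.succ_le_of_lt h₀.uncountable) (fun h => h₀.ne_succ ℵ₀ h.symm)
  -- σ-disjoint covers
  choose V hVo hVd hVs hVc using fun k : ℕ =>
    exists_sigma_disjoint (X := X) (1 / ((k : ℝ) + 1)) (by positivity)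
  -- the good members of the covers
  let Good : ℕ → ℕ → ℕ → X → Prop := fun n k m y => ∃ lam < #ι₀,
    ∀ s, ∃ D : Set X, #D ≤ lam ∧ F s ∩ V k m y ∩ Y n ⊆ closure D
  -- uniform bounds on the good members
  have h1 : ∀ n k m, ∃ γ < (aleph 1).ord, ∀ y, Good n k m y → ∀ T : Set S₀,
      U F T ∩ Y n ∩ V k m y ∈ CC S γ := by
    intro n k m
    by_contra hno
    push Not at hno
    choose y hy' T hTn using fun i : ((aleph 1).ord : Ordinal.{0}).ToType =>
      hno ((Ordinal.ToType.mk.symm i : Iio ((aleph 1).ord : Ordinal.{0})) : Ordinal.{0})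
        (Ordinal.ToType.mk.symm i).2
    choose lam' hlam' hy using hy'
    let lam : Cardinal.{u} := max ℵ₀ (⨆ i : ULift.{u} (((aleph 1).ord : Ordinal.{0}).ToType),
      lam' i.down)
    have hlam : lam < #ι₀ := by
      refine max_lt h₀.uncountable (iSup_lt_of_isRegular hreg ?_ fun i => hlam' _)
      rw [mk_uLift, mk_ord_toType]
      simpa using h01
    have hlam0 : ℵ₀ ≤ lam := le_max_left _ _
    have hle' : ∀ i, lam' i ≤ lam := fun i =>
      (le_ciSup (Cardinal.bddAbove_range _) (ULift.up i)).trans (le_max_right _ _)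
    let O : Set X := ⋃ i, V k m (y i)
    have hO : IsOpen O := isOpen_iUnion fun i => hVo k m _
    let F' : S₀ → Set X := fun s => F s ∩ (Y n ∩ O)
    have hF' : ∀ T, U F' T = U F T ∩ (Y n ∩ O) := by
      intro T
      ext x
      simp only [mem_U, F', mem_inter_iff]
      constructor
      · rintro ⟨s, hs, hx, h⟩; exact ⟨⟨s, hs, hx⟩, h⟩
      · rintro ⟨⟨s, hs, hx⟩, h⟩; exact ⟨s, hs, hx, h⟩
    obtain ⟨δ, hδ, hYδ⟩ := hY n
    have hbd := bounded_of_small_density F'
      (fun x => (pf x).subset (fun s hs => hs.1)) hS (by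
        intro T
        obtain ⟨α, hα, hT⟩ := bor T
        have hm : max α (max δ 1) < (aleph 1).ord :=
          max_lt hα (max_lt hδ Pool.L5helper52.BA.one_lt)
        refine ⟨max α (max δ 1) + 2 + 2, add_two_lt (add_two_lt hm), ?_⟩
        rw [hF']
        refine hC.inter2 (add_two_lt hm) (hC.mono _ _ ?_ hT) (hC.inter2 hm ?_ ?_)
        · exact (le_max_left _ _).trans le_self_add
        · exact hC.mono _ _ ((le_max_left _ _).trans (le_max_right _ _)) hYδ
        · exact hC.mono _ _ ((le_max_right _ _).trans (le_max_right _ _)) (open_CC hS hO))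
      (max lam (aleph 1)) (hlam0.trans (le_max_left _ _)) (by
        intro ι J hJ hc hX
        exact (max_lt hlam h01).trans_le (hmin ι J hJ hc hX)) (by
        intro s
        choose D hD hFD using fun i => hy i s
        refine ⟨⋃ i, D i, ?_, ?_⟩
        · have h2 : Cardinal.lift.{0} #(⋃ i, D i) ≤
              Cardinal.lift.{u} #(((aleph 1).ord : Ordinal.{0}).ToType) *
                ⨆ i, Cardinal.lift.{0} #(D i) := mk_iUnion_le_lift _
          have h3 : (⨆ i, Cardinal.lift.{0} #(D i)) ≤ max lam (aleph 1) :=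
            ciSup_le' fun i => by simpa using Or.inl ((hD i).trans (hle' i))
          have h4 : Cardinal.lift.{u} #(((aleph 1).ord : Ordinal.{0}).ToType) ≤
              max lam (aleph 1) := by
            rw [mk_ord_toType]; simp
          have h5 := h2.trans (mul_le_mul' h4 h3)
          rw [mul_eq_self (hlam0.trans (le_max_left _ _))] at h5
          simpa using h5
        · rintro x ⟨hxF, hxY, hxO⟩
          obtain ⟨i, hi⟩ := mem_iUnion.1 hxO
          exact closure_mono (subset_iUnion D i) (hFD i ⟨⟨hxF, hi⟩, hxY⟩))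
    obtain ⟨γ, hγ, hbγ⟩ := hbd
    have hm : max γ 1 < (aleph 1).ord := max_lt hγ Pool.L5helper52.BA.one_lt
    refine hTn (Ordinal.ToType.mk ⟨max γ 1 + 2, add_two_lt hm⟩) ?_
    set i := Ordinal.ToType.mk (⟨max γ 1 + 2, add_two_lt hm⟩ :
      Iio ((aleph 1).ord : Ordinal.{0})) with hi
    have heq : U F (T i) ∩ Y n ∩ V k m (y i) = U F' (T i) ∩ V k m (y i) := by
      rw [hF']
      ext x
      simp only [mem_inter_iff]
      constructor
      · rintro ⟨⟨h, h'⟩, h''⟩; exact ⟨⟨h, h', mem_iUnion.2 ⟨i, h''⟩⟩, h''⟩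
      · rintro ⟨⟨h, h', _⟩, h''⟩; exact ⟨⟨h, h'⟩, h''⟩
    rw [heq]
    have := hC.inter2 hm (hC.mono _ _ (le_max_left _ _) (hbγ (T i) (subset_univ _)))
      (hC.mono _ _ (le_max_right _ _) (open_CC hS (hVo k m (y i))))
    simpa [hi] using this
  -- discrete unions
  have h2 : ∀ n k m, ∃ β < (aleph 1).ord, ∀ T : Set S₀,
      (⋃ y : {y // Good n k m y}, (U F T ∩ Y n ∩ V k m y)) ∈ CC S β := by
    intro n k m
    obtain ⟨γ, hγ, hb⟩ := h1 n k m
    obtain ⟨β, hβ, hU⟩ := disjoint_union hS γ hγ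
    refine ⟨β, hβ, fun T => ?_⟩
    have := hU {y // Good n k m y} (fun y => V k m y) (fun y => U F T ∩ Y n ∩ V k m y)
      (fun y => hVo k m y) (fun y y' hne => hVd k m (fun h => hne (Subtype.ext h)))
      (fun y => hb y y.2 T)
    convert this using 2
    ext x
    simp
  choose β hβ hb using h2
  obtain ⟨δ, hδ, hle⟩ := sup_lt (fun nkm : ℕ × ℕ × ℕ => β nkm.1 nkm.2.1 nkm.2.2)
    (fun nkm => hβ _ _ _)
  refine ⟨δ + 2, add_two_lt hδ, fun T _ => ?_⟩
  have hT : U F T = ⋃ nkm : ℕ × ℕ × ℕ, ⋃ y : {y // Good nkm.1 nkm.2.1 nkm.2.2 y},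
      (U F T ∩ Y nkm.1 ∩ V nkm.2.1 nkm.2.2 y) := by
    ext x
    simp only [mem_iUnion, mem_inter_iff]
    constructor
    · intro hx
      obtain ⟨n, hn⟩ := hYc x
      obtain ⟨W, hW, hxW, lam, hlam, hWs⟩ := hloc n x hn
      obtain ⟨ε, hε, hball⟩ := Metric.isOpen_iff.1 hW x hxW
      obtain ⟨k, hk⟩ := exists_nat_one_div_lt hε
      obtain ⟨m, y, hy⟩ := hVc k x
      refine ⟨(n, k, m), ⟨y, lam, hlam, ?_⟩, ⟨hx, hn⟩, hy⟩
      intro s
      obtain ⟨D, hD, hFD⟩ := hWs s
      refine ⟨D, hD, fun z hz => hFD ⟨⟨hz.1.1, ?_⟩, hz.2⟩⟩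
      apply hball
      rw [Metric.mem_ball]
      exact lt_of_le_of_lt (hVs k m y z hz.1.2 x hy) hk
    · rintro ⟨_, _, ⟨hx, _⟩, _⟩; exact hx
  rw [hT]
  exact hC.union_mem _ hδ fun nkm => hC.mono _ _ (hle nkm) (hb _ _ _ T)

end Pool.L5helper54.BA
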