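import Pool.Agent.L5helper54.BA.Members
import Pool.Agent.L5helper54.BA.Code
import Pool.Agent.L5helper52.BA.Tree
import Pool.Agent.L5helper52.BA.Free
import Pool.Agent.L5helper52.BA.Hi
import Pool.Agent.L5helper52.BA.Disj
import Pool.Agent.L5helper55.BA.Add
import Pool.Agent.L5helper55.BA.Ulam
import Pool.Agent.L5helper99.BA.Code
import Pool.Agent.L5helper67.BA.Cover

set_option autoImplicit false
open Cardinal Set

namespace Pool.L5helper54.BA

universe u

open Pool.L5helper52.BA (tree_lemma exists_free disjoint_union)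
open Pool.Agent.L5helper67.BA (exists_sigma_disjoint)

theorem IsHier.hier {X : Type u} [TopologicalSpace X] {S : Ordinal.{0} → Set (Set X)}
    (hS : IsHier S) : Hier (CC S) := Pool.L5helper52.BA.hier hS

/-- An unbounded family has a quasi-measurable additivity, at most the continuum. -/
theorem core {X : Type u} {S : Type u} (F : S → Set X)
    (pf : ∀ x, {s | x ∈ F s}.Finite) {C : Ordinal.{0} → Set (Set X)} (hC : Hier C)
    (bor : ∀ T : Set S, ∃ α < (aleph 1).ord, U F T ∈ C α)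
    (hS : (Set.univ : Set S) ∉ BdIdeal F C) :
    ∃ (ι : Type u) (R : ι → Set S), ℵ₀ < #ι ∧ #ι ≤ #S ∧ #ι ≤ continuum ∧
      (∀ 𝒟 : Set (Set S), #𝒟 < #ι → (∀ D ∈ 𝒟, D ∈ BdIdeal F C) → ⋃₀ 𝒟 ∈ BdIdeal F C) ∧
      Pairwise (Function.onFun Disjoint R) ∧ (∀ i, R i ∈ BdIdeal F C) ∧
      (⋃ i, R i) ∉ BdIdeal F C := by
  have hI := satIdeal_of_family F hC bor (members_bounded F pf hC bor)
  obtain ⟨ι, R, h0, hle, hc, hd, hR, hU⟩ := exists_additivity hI (empty_mem_bd F bor) hS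
  refine ⟨ι, R, h0, hle, ?_, hc, hd, hR, hU⟩
  by_contra hcon
  rw [not_le] at hcon
  -- sets of indices whose unions are of large class
  have h3 : ∀ i : ((aleph 1).ord : Ordinal.{0}).ToType, ∃ T : Set S,
      U F T ∉ C ((Ordinal.ToType.mk.symm i : Iio ((aleph 1).ord : Ordinal.{0})) : Ordinal.{0}) := by
    intro i
    by_contra hno
    push Not at hno
    exact hS ⟨_, (Ordinal.ToType.mk.symm i).2, fun T _ => hno T⟩
  choose T hT using h3
  obtain ⟨N, hN, 𝒬, hcount, hcov, hdich⟩ := tree_lemma hI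
    (fun 𝒟 h𝒟 => hc 𝒟 (h𝒟.trans_lt hcon))
    (Ω := ((aleph 1).ord : Ordinal.{0}).ToType) (by
      intro γ
      rw [← Cardinal.le_aleph0_iff_set_countable, ← Order.lt_succ_iff, succ_aleph0]
      have := Cardinal.mk_Iio_lt γ (by simp)
      simpa using this) T
  obtain ⟨β, hβ, hNβ⟩ := hN
  -- classes of the pieces
  obtain ⟨γ, hγ, hγ'⟩ : ∃ γ < (aleph 1).ord, ∀ P ∈ 𝒬, U F P ∈ C γ := by
    have : ∀ P : 𝒬, ∃ α < (aleph 1).ord, U F (P : Set S) ∈ C α := fun P => bor P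
    choose a ha ha' using this
    haveI := hcount.to_subtype
    obtain ⟨γ, hγ, hle⟩ := sup_lt a ha
    exact ⟨γ, hγ, fun P hP => hC.mono _ _ (hle ⟨P, hP⟩) (ha' ⟨P, hP⟩)⟩
  have hempty : U F (∅ : Set S) ∈ C β := hNβ ∅ (empty_subset _)
  have hδ : max β γ < (aleph 1).ord := max_lt hβ hγ
  have key : ∀ i, U F (T i) ∈ C (max β γ + 2 + 2) := by
    intro i
    have hT' : T i = (T i ∩ N) ∪ ⋃ P : 𝒬, (T i ∩ P) := by
      rw [← inter_iUnion, ← sUnion_eq_iUnion, ← inter_union_distrib_left, hcov, inter_univ]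
    rw [hT', U_union, U_iUnion]
    refine hC.union2 (add_two_lt hδ) (hC.mono _ _ ?_ (hNβ _ inter_subset_right)) ?_
    · exact (le_max_left _ _).trans (le_self_add)
    · by_cases hne : Nonempty 𝒬
      · haveI := hcount.to_subtype
        refine hC.union_mem _ hδ fun P => ?_
        rcases hdich P P.2 i with h | h
        · rw [inter_eq_right.2 h]
          exact hC.mono _ _ (le_max_right _ _) (hγ' P P.2)
        · rw [(disjoint_iff_inter_eq_empty.1 h.symm)]
          exact hC.mono _ _ (le_max_left _ _) hempty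
      · haveI := not_nonempty_iff.1 hne
        rw [iUnion_of_empty]
        have : (∅ : Set X) = U F (∅ : Set S) := by simp [U]
        rw [this]
        exact hC.mono _ _ ((le_max_left _ _).trans le_self_add) hempty
  refine hT (Ordinal.ToType.mk ⟨max β γ + 2 + 2, add_two_lt (add_two_lt hδ)⟩) ?_
  have := key (Ordinal.ToType.mk ⟨max β γ + 2 + 2, add_two_lt (add_two_lt hδ)⟩)
  simpa using this

theorem dichotomy {X : Type u} {S : Type u} (F : S → Set X)
    (pf : ∀ x, {s | x ∈ F s}.Finite) {C : Ordinal.{0} → Set (Set X)} (hC : Hier C)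
    (bor : ∀ T : Set S, ∃ α < (aleph 1).ord, U F T ∈ C α) :
    (∃ α < (aleph 1).ord, ∀ T : Set S, U F T ∈ C α) ∨
    ∃ (ι : Type u) (J : Set (Set ι)), QM ι J ∧ #ι ≤ #S ∧ #ι ≤ continuum := by
  by_cases hS : (Set.univ : Set S) ∈ BdIdeal F C
  · obtain ⟨α, hα, h⟩ := hS
    exact Or.inl ⟨α, hα, fun T => h T (subset_univ T)⟩
  · obtain ⟨ι, R, h0, hle, hlec, hc, hd, hR, hU⟩ := core F pf hC bor hS
    exact Or.inr ⟨ι, _, qm_push (satIdeal_of_family F hC bor (members_bounded F pf hC bor))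
      R h0 hc hd hR hU, hle, hlec⟩

/-- (B6) an uncountable selection with separable range makes the whole family bounded -/
theorem bounded_of_selection {X : Type u} [TopologicalSpace X] {S₀ : Type u} (F : S₀ → Set X)
    (pf : ∀ x, {s | x ∈ F s}.Finite) {S : Ordinal.{0} → Set (Set X)} (hS : IsHier S)
    (bor : ∀ T : Set S₀, ∃ α < (aleph 1).ord, U F T ∈ CC S α)
    (P : Set S₀) (hP : ¬ P.Countable) (p : S₀ → X) (hp : ∀ s ∈ P, p s ∈ F s)
    (B : ℕ → Set X)
    (hB : ∀ O : Set X, IsOpen O → ∃ c : ℕ → Prop, ∀ s ∈ P, p s ∈ O ↔ ∃ n, c n ∧ p s ∈ B n) :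
    (Set.univ : Set S₀) ∈ BdIdeal F (CC S) := by
  classical
  have hC := hS.hier
  obtain ⟨A, hAP, hAc, hfree⟩ := exists_free (fun s => {t | p s ∈ F t}) (fun s => pf (p s)) P hP
  have h1 : (aleph 1 : Cardinal.{u}) ≤ #A := by
    rw [← succ_aleph0, Order.succ_le_iff]
    by_contra hle
    exact hAc (Cardinal.le_aleph0_iff_set_countable.1 (not_lt.1 hle))
  obtain ⟨A₁, hA₁A, hA₁⟩ := Cardinal.le_mk_iff_exists_subset.1 h1
  -- the family of `A₁` is bounded
  have hb : ∃ α < (aleph 1).ord, ∀ T : Set A₁, U (fun s : A₁ => F s) T ∈ CC S α := by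
    have hU : ∀ T : Set A₁, U (fun s : A₁ => F s) T = U F (Subtype.val '' T) := by
      intro T; ext x; simp [mem_U]
    rcases dichotomy (fun s : A₁ => F s)
      (fun x => (pf x).preimage Subtype.val_injective.injOn) hC
      (fun T => by rw [hU]; exact bor _) with h | ⟨ι, J, hJ, hle, -⟩
    · exact h
    · exfalso
      rw [hA₁, ← succ_aleph0] at hle
      exact hJ.ne_succ ℵ₀ (le_antisymm hle (Order.succ_le_of_lt hJ.uncountable))
  obtain ⟨α, hα, hbd⟩ := hb
  obtain ⟨t, ht⟩ := encode hS (fun z : A₁ => p z) (fun n => {z : A₁ | p z ∈ B n}) (by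
    intro O hO
    obtain ⟨c, hc⟩ := hB O hO
    exact ⟨c, fun z => by simpa using hc z (hAP (hA₁A z.2))⟩) α hα
  have hcode : ∀ D : Set A₁, ∃ c : Coord t → Prop, ∀ z, z ∈ D ↔
      z ∈ evalC (fun n => {z : A₁ | p z ∈ B n}) t c := by
    intro D
    obtain ⟨c, hc⟩ := ht _ (hbd D)
    refine ⟨c, fun z => ?_⟩
    rw [← hc z, mem_U]
    constructor
    · intro hz
      exact ⟨z, hz, hp _ (hAP (hA₁A z.2))⟩
    · rintro ⟨s, hs, hz⟩
      by_contra hne
      have hsz : (z : S₀) ≠ s := by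
        intro h
        have : z = s := Subtype.ext h
        exact hne (this ▸ hs)
      exact hfree _ (hA₁A z.2) _ (hA₁A s.2) hsz hz
  by_contra hun
  have h3 : ∀ i : ((aleph 1).ord : Ordinal.{0}).ToType, ∃ T : Set S₀,
      U F T ∉ CC S ((Ordinal.ToType.mk.symm i : Iio ((aleph 1).ord : Ordinal.{0})) : Ordinal.{0}) := by
    intro i
    by_contra hno
    push Not at hno
    exact hun ⟨_, (Ordinal.ToType.mk.symm i).2, fun T _ => hno T⟩
  choose T hT using h3
  have hg : Nonempty (((aleph 1).ord : Ordinal.{0}).ToType ≃ A₁) := by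
    apply Cardinal.lift_mk_eq'.1
    rw [mk_ord_toType, hA₁]; simp
  obtain ⟨g⟩ := hg
  choose c hc using fun s : S₀ => hcode {z : A₁ | s ∈ T (g.symm z)}
  obtain ⟨δ, hδ, hbδ⟩ := decode_bounded F pf hC bor (fun n => {z : A₁ | p z ∈ B n}) t
    (fun j => {s | c s j})
  have key : ∀ i, U F (T i) ∈ CC S δ := by
    intro i
    have := hbδ (g i)
    convert this using 2
    ext s
    have := hc s (g i)
    simpa using this
  refine hT (Ordinal.ToType.mk ⟨δ, hδ⟩) ?_
  have := key (Ordinal.ToType.mk ⟨δ, hδ⟩)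
  simpa using this

/-- Claim 1: few open sets of a disjoint family meet non-null many members. -/
theorem claim1 {X : Type u} [TopologicalSpace X] {S₀ : Type u} {I : Set (Set S₀)}
    (hI : SatIdeal I) (hemp : (∅ : Set S₀) ∈ I) (F : S₀ → Set X) (lam : Cardinal.{u})
    (hlam0 : ℵ₀ ≤ lam)
    (hcI : ∀ (κ : Type u) (D : κ → Set S₀), #κ ≤ lam → (∀ k, D k ∈ I) → (⋃ k, D k) ∈ I)
    (hdens : ∀ s, ∃ D : Set X, #D ≤ lam ∧ F s ⊆ closure D)
    {Y : Type u} (V : Y → Set X) (hVo : ∀ y, IsOpen (V y))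
    (hVd : Pairwise (Function.onFun Disjoint V)) :
    #{y | {s | (F s ∩ V y).Nonempty} ∉ I} ≤ lam := by
  classical
  choose D hD hFD using hdens
  have : ∀ s, Nonempty (D s ↪ lam.out) := fun s => by
    have := hD s
    rwa [← mk_out lam] at this
  let e := fun s => (this s).some
  let P : lam.out → Y → Set S₀ := fun ξ y => {s | ∃ d : D s, e s d = ξ ∧ (d : X) ∈ V y}
  have hPd : ∀ ξ y y', y ≠ y' → Disjoint (P ξ y) (P ξ y') := by
    intro ξ y y' hne
    rw [Set.disjoint_left]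
    rintro s ⟨d, hd, hdy⟩ ⟨d', hd', hdy'⟩
    have : d = d' := (e s).injective (hd.trans hd'.symm)
    subst this
    exact Set.disjoint_left.1 (hVd hne) hdy hdy'
  have hsub : {y | {s | (F s ∩ V y).Nonempty} ∉ I} ⊆ ⋃ ξ, {y | P ξ y ∉ I} := by
    intro y hy
    by_contra hno
    simp only [mem_iUnion, mem_setOf_eq, not_exists, not_not] at hno
    apply hy
    refine hI.mono _ (hcI lam.out (fun ξ => P ξ y) (by rw [mk_out]) hno) _ ?_
    rintro s ⟨x, hx, hxV⟩
    obtain ⟨d, hdV, hdD⟩ := mem_closure_iff.1 (hFD s hx) (V y) (hVo y) hxV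
    exact mem_iUnion.2 ⟨e s ⟨d, hdD⟩, ⟨d, hdD⟩, rfl, hdV⟩
  have hcount : ∀ ξ, {y | P ξ y ∉ I}.Countable := by
    intro ξ
    have h1 : ((P ξ) '' {y | P ξ y ∉ I}).Countable := by
      apply hI.sat
      · rintro _ ⟨y, hy, rfl⟩ _ ⟨y', hy', rfl⟩ hne
        exact hPd ξ y y' (fun h => hne (by rw [h]))
      · rintro _ ⟨y, hy, rfl⟩; exact hy
    refine Set.MapsTo.countable_of_injOn (f := P ξ) (fun y hy => mem_image_of_mem _ hy) ?_ h1
    intro y hy y' hy' heq
    by_contra hne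
    have hdis := hPd ξ y y' hne
    rw [heq, disjoint_self] at hdis
    exact hy' (by rw [hdis]; exact hemp)
  calc #{y | {s | (F s ∩ V y).Nonempty} ∉ I} ≤ #(⋃ ξ, {y | P ξ y ∉ I}) := mk_le_mk_of_subset hsub
    _ ≤ #(lam.out) * ⨆ ξ, #{y | P ξ y ∉ I} := mk_iUnion_le _
    _ ≤ lam * ℵ₀ := by
        rw [mk_out]
        exact mul_le_mul' le_rfl (ciSup_le' fun ξ => (hcount ξ).le_aleph0)
    _ = lam := mul_eq_left hlam0 hlam0 aleph0_ne_zero

/-- Claim 2: the family is bounded on the union of the null sets of a disjoint open family. -/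
theorem claim2 {X : Type u} [TopologicalSpace X] {S₀ : Type u} (F : S₀ → Set X)
    {S : Ordinal.{0} → Set (Set X)} (hS : IsHier S)
    (hemp : (∅ : Set S₀) ∈ BdIdeal F (CC S))
    (hcI : ∀ (D : ((aleph 1).ord : Ordinal.{0}).ToType → Set S₀),
      (∀ k, D k ∈ BdIdeal F (CC S)) → (⋃ k, D k) ∈ BdIdeal F (CC S))
    {Y : Type u} (V : Y → Set X) (hVo : ∀ y, IsOpen (V y))
    (hVd : Pairwise (Function.onFun Disjoint V)) :
    ∃ β < (aleph 1).ord, ∀ T : Set S₀,
      U F T ∩ (⋃ y ∈ {y | {s | (F s ∩ V y).Nonempty} ∈ BdIdeal F (CC S)}, V y) ∈ CC S β := by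
  classical
  have hC := hS.hier
  let Sy : Y → Set S₀ := fun y => {s | (F s ∩ V y).Nonempty}
  -- uniform bound
  obtain ⟨γ, hγ, hbd⟩ : ∃ γ < (aleph 1).ord, ∀ y, Sy y ∈ BdIdeal F (CC S) →
      ∀ T ⊆ Sy y, U F T ∈ CC S γ := by
    by_contra hno
    push Not at hno
    choose y hy T hT hTn using fun i : ((aleph 1).ord : Ordinal.{0}).ToType =>
      hno ((Ordinal.ToType.mk.symm i : Iio ((aleph 1).ord : Ordinal.{0})) : Ordinal.{0})
        (Ordinal.ToType.mk.symm i).2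
    obtain ⟨δ, hδ, hbδ⟩ := hcI (fun i => Sy (y i)) hy
    refine hTn (Ordinal.ToType.mk ⟨δ, hδ⟩) ?_
    have := hbδ (T (Ordinal.ToType.mk ⟨δ, hδ⟩))
      ((hT _).trans (subset_iUnion (fun i => Sy (y i)) _))
    simpa using this
  obtain ⟨δ, hδ, hempδ⟩ := hemp
  obtain ⟨β, hβ, hβU⟩ := disjoint_union hS (max γ δ) (max_lt hγ hδ)
  refine ⟨β, hβ, fun T => ?_⟩
  have := hβU Y V (fun y => if Sy y ∈ BdIdeal F (CC S) then U F (T ∩ Sy y) else U F ∅) hVo hVd
    (by
      intro y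

      split_ifs with h
      · exact hC.mono _ _ (le_max_left _ _) (hbd y h _ inter_subset_right)
      · exact hC.mono _ _ (le_max_right _ _) (hempδ ∅ (subset_refl _)))
  convert this using 1
  ext x
  simp only [mem_inter_iff, mem_iUnion, mem_setOf_eq, exists_prop]
  constructor
  · rintro ⟨hx, y, hy, hxy⟩
    refine ⟨y, ?_, hxy⟩
    rw [if_pos hy]
    obtain ⟨s, hs, hxs⟩ := mem_U.1 hx
    exact mem_U.2 ⟨s, ⟨hs, x, hxs, hxy⟩, hxs⟩
  · rintro ⟨y, hy, hxy⟩
    split_ifs at hy with h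
    · obtain ⟨s, hs, hxs⟩ := mem_U.1 hy
      exact ⟨mem_U.2 ⟨s, hs.1, hxs⟩, y, h, hxy⟩
    · simp [U] at hy

theorem SatIdeal.countable_mem {S : Type u} {I : Set (Set S)} (hI : SatIdeal I)
    (h0 : (∅ : Set S) ∈ I) {P : Set S} (hP : P.Countable) : P ∈ I := by
  rcases P.eq_empty_or_nonempty with rfl | hne
  · exact h0
  · obtain ⟨f, rfl⟩ := hP.exists_eq_range hne
    have : range f = ⋃ n, {f n} := by ext x; simp [eq_comm]
    rw [this]
    exact hI.cunion _ fun n => hI.single _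

/-- (B7) members of small density -/
theorem bounded_of_small_density {X : Type u} [MetricSpace X] {S₀ : Type u} (F : S₀ → Set X)
    (pf : ∀ x, {s | x ∈ F s}.Finite) {S : Ordinal.{0} → Set (Set X)} (hS : IsHier S)
    (bor : ∀ T : Set S₀, ∃ α < (aleph 1).ord, U F T ∈ CC S α)
    (lam : Cardinal.{u}) (hlam0 : ℵ₀ ≤ lam)
    (hlam : ∀ (ι : Type u) (J : Set (Set ι)), QM ι J → #ι ≤ continuum → #ι ≤ #S₀ → lam < #ι)
    (hdens : ∀ s, ∃ D : Set X, #D ≤ lam ∧ F s ⊆ closure D) :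
    (Set.univ : Set S₀) ∈ BdIdeal F (CC S) := by
  classical
  by_contra hun
  have hC := hS.hier
  have hI := satIdeal_of_family F hC bor (members_bounded F pf hC bor)
  obtain ⟨ι, R, h0, hle, hlec, hc, hd, hR, hRU⟩ := core F pf hC bor hun
  have hQ := qm_push hI R h0 hc hd hR hRU
  have hlt : lam < #ι := hlam ι _ hQ hlec hle
  have hlt1 : aleph 1 < #ι := by
    rw [← succ_aleph0]
    exact lt_of_le_of_ne (Order.succ_le_of_lt h0) (fun h => hQ.ne_succ ℵ₀ h.symm)
  -- the empty set is null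
  have hemp : (∅ : Set S₀) ∈ BdIdeal F (CC S) := by
    obtain ⟨β, hβ, h⟩ := bor ∅
    exact ⟨β, hβ, fun T' hT' => by rw [subset_empty_iff.1 hT']; exact h⟩
  -- indexed form of completeness
  have hcI : ∀ (κ : Type u) (D : κ → Set S₀), #κ < #ι → (∀ k, D k ∈ BdIdeal F (CC S)) →
      (⋃ k, D k) ∈ BdIdeal F (CC S) := by
    intro κ D hκ hD
    rw [← sUnion_range]
    exact hc _ (lt_of_le_of_lt mk_range_le hκ) (by rintro _ ⟨k, rfl⟩; exact hD k)
  have hcI1 : ∀ (D : ((aleph 1).ord : Ordinal.{0}).ToType → Set S₀),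
      (∀ k, D k ∈ BdIdeal F (CC S)) → (⋃ k, D k) ∈ BdIdeal F (CC S) := by
    intro D hD
    have : (⋃ k, D k) = ⋃ k : ULift.{u} ((aleph 1).ord : Ordinal.{0}).ToType, D k.down := by
      ext x; simp [mem_iUnion]
    rw [this]
    refine hcI _ _ ?_ (fun k => hD _)
    rw [mk_uLift, mk_ord_toType]
    simpa using hlt1
  -- σ-disjoint covers
  choose V hVo hVd hVs hVc using fun n : ℕ =>
    exists_sigma_disjoint (X := X) (1 / ((n : ℝ) + 1)) (by positivity)
  let W : ℕ → ℕ → Set X := fun n m =>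
    ⋃ y ∈ {y | {s | (F s ∩ V n m y).Nonempty} ∈ BdIdeal F (CC S)}, V n m y
  choose β hβ hβW using fun n m => claim2 F hS hemp hcI1 (V n m) (hVo n m) (hVd n m)
  have hY : ∀ n m, #{y | {s | (F s ∩ V n m y).Nonempty} ∉ BdIdeal F (CC S)} ≤ lam := fun n m =>
    claim1 hI hemp F lam hlam0 (fun κ D hκ hD => hcI κ D (lt_of_le_of_lt hκ hlt) hD) hdens
      (V n m) (hVo n m) (hVd n m)
  -- the residual part
  let X' : Set X := {x | ∀ n m, x ∉ W n m}
  let S' : Set S₀ := {s | (F s ∩ X').Nonempty}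
  by_cases hS' : S' ∈ BdIdeal F (CC S)
  · -- everything is bounded
    apply hun
    obtain ⟨γ, hγ, hbγ⟩ := hS'
    obtain ⟨δ, hδ, hle⟩ := sup_lt (fun nm : ℕ × ℕ => β nm.1 nm.2) (fun nm => hβ _ _)
    have hγδ : max γ δ < (aleph 1).ord := max_lt hγ hδ
    refine ⟨max γ δ + 2 + 2, add_two_lt (add_two_lt hγδ), fun T _ => ?_⟩
    have hTeq : U F T = U F (T ∩ S') ∪ ⋃ nm : ℕ × ℕ, (U F (T \ S') ∩ W nm.1 nm.2) := by
      ext x
      constructor
      · intro hx
        obtain ⟨s, hs, hxs⟩ := mem_U.1 hx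
        by_cases hsS : s ∈ S'
        · exact Or.inl (mem_U.2 ⟨s, ⟨hs, hsS⟩, hxs⟩)
        · right
          have hxX : x ∉ X' := fun h => hsS ⟨x, hxs, h⟩
          simp only [X', mem_setOf_eq, not_forall, not_not] at hxX
          obtain ⟨n, m, hnm⟩ := hxX
          exact mem_iUnion.2 ⟨(n, m), mem_U.2 ⟨s, ⟨hs, hsS⟩, hxs⟩, hnm⟩
      · rintro (hx | hx)
        · obtain ⟨s, hs, hxs⟩ := mem_U.1 hx
          exact mem_U.2 ⟨s, hs.1, hxs⟩
        · obtain ⟨nm, hx, -⟩ := mem_iUnion.1 hx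
          obtain ⟨s, hs, hxs⟩ := mem_U.1 hx
          exact mem_U.2 ⟨s, hs.1, hxs⟩
    rw [hTeq]
    refine hC.union2 (add_two_lt hγδ)
      (hC.mono _ _ ((le_max_left _ _).trans le_self_add) (hbγ _ inter_subset_right)) ?_
    exact hC.union_mem _ hγδ fun nm =>
      hC.mono _ _ ((hle nm).trans (le_max_right _ _)) (hβW nm.1 nm.2 _)
  · -- a selection with separable range
    have hsel : ∀ s : S₀, ∃ x : X, s ∈ S' → x ∈ F s ∩ X' := by
      intro s
      by_cases hs : s ∈ S'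
      · obtain ⟨x, hx⟩ := hs
        exact ⟨x, fun _ => hx⟩
      · have hne : S'.Nonempty := by
          rw [nonempty_iff_ne_empty]; rintro h; exact hS' (h ▸ hemp)
        obtain ⟨_, x, _⟩ := hne
        exact ⟨x, fun h => (hs h).elim⟩
    choose p hp using hsel
    let Pn : ℕ → ℕ → X → Set S₀ := fun n m y => {s | s ∈ S' ∧ p s ∈ V n m y}
    let N : Set S₀ := ⋃ nm : ℕ × ℕ, ⋃ y : {y // {s | (F s ∩ V nm.1 nm.2 y).Nonempty} ∉
        BdIdeal F (CC S)}, if Pn nm.1 nm.2 y ∈ BdIdeal F (CC S) then Pn nm.1 nm.2 y else ∅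
    have hN : N ∈ BdIdeal F (CC S) := by
      have h1 : ∀ nm : ℕ × ℕ, (⋃ y : {y // {s | (F s ∩ V nm.1 nm.2 y).Nonempty} ∉
        BdIdeal F (CC S)}, if Pn nm.1 nm.2 y ∈ BdIdeal F (CC S) then Pn nm.1 nm.2 y else ∅)
          ∈ BdIdeal F (CC S) := by
        intro nm
        apply hcI _ _ (lt_of_le_of_lt (hY nm.1 nm.2) hlt)
        intro y
        split_ifs with h
        · exact h
        · exact hemp
      obtain ⟨g, hg⟩ := exists_surjective_nat (ℕ × ℕ)
      show (⋃ nm : ℕ × ℕ, _) ∈ _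
      rw [← hg.iUnion_comp]
      exact hI.cunion _ fun n => h1 _
    let P : Set S₀ := S' \ N
    have hP : P ∉ BdIdeal F (CC S) := by
      intro h
      apply hS'
      have h2 : (P ∪ N) ∈ BdIdeal F (CC S) := by
        have := hI.cunion (fun n => if n = 0 then P else N) (by
          intro n; split_ifs <;> assumption)
        refine hI.mono _ this _ ?_
        rintro x (hx | hx)
        · exact mem_iUnion.2 ⟨0, by simpa using hx⟩
        · exact mem_iUnion.2 ⟨1, by simpa using hx⟩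
      exact hI.mono _ h2 _ (fun s hs => by
        by_cases hsN : s ∈ N
        · exact Or.inr hsN
        · exact Or.inl ⟨hs, hsN⟩)
    have hPc : ¬ P.Countable := fun h => hP (hI.countable_mem hemp h)
    -- countably many open sets
    have hZ : ∀ n m, {y | Pn n m y ∉ BdIdeal F (CC S)}.Countable := by
      intro n m
      have h1 : ((Pn n m) '' {y | Pn n m y ∉ BdIdeal F (CC S)}).Countable := by
        apply hI.sat
        · rintro _ ⟨y, hy, rfl⟩ _ ⟨y', hy', rfl⟩ hne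
          change Disjoint (Pn n m y) (Pn n m y')
          rw [Set.disjoint_left]
          rintro s ⟨_, hs⟩ ⟨_, hs'⟩
          exact Set.disjoint_left.1 (hVd n m (fun h => hne (by rw [h]))) hs hs'
        · rintro _ ⟨y, hy, rfl⟩; exact hy
      refine Set.MapsTo.countable_of_injOn (f := Pn n m) (fun y hy => mem_image_of_mem _ hy) ?_ h1
      intro y hy y' hy' heq
      by_contra hne
      have hdis : Disjoint (Pn n m y) (Pn n m y') := by
        rw [Set.disjoint_left]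
        rintro s ⟨_, hs⟩ ⟨_, hs'⟩
        exact Set.disjoint_left.1 (hVd n m hne) hs hs'
      rw [heq, disjoint_self] at hdis
      exact hy' (by rw [hdis]; exact hemp)
    let 𝒰 : Set (Set X) := ⋃ nm : ℕ × ℕ,
      (V nm.1 nm.2) '' {y | Pn nm.1 nm.2 y ∉ BdIdeal F (CC S)}
    have h𝒰 : 𝒰.Countable := countable_iUnion fun nm => (hZ nm.1 nm.2).image _
    obtain ⟨B, hB⟩ : ∃ B : ℕ → Set X, 𝒰 ⊆ range B := by
      rcases 𝒰.eq_empty_or_nonempty with h | h
      · exact ⟨fun _ => ∅, by rw [h]; exact empty_subset _⟩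
      · obtain ⟨B, hB⟩ := h𝒰.exists_eq_range h
        exact ⟨B, hB.subset⟩
    apply hun
    refine bounded_of_selection F pf hS bor P hPc p (fun s hs => (hp s hs.1).1) B ?_
    intro O hO
    refine ⟨fun k => B k ⊆ O, fun s hs => ⟨fun hpO => ?_, fun ⟨k, hk, hpk⟩ => hk hpk⟩⟩
    obtain ⟨ε, hε, hball⟩ := Metric.isOpen_iff.1 hO _ hpO
    obtain ⟨n, hn⟩ := exists_nat_one_div_lt hε
    obtain ⟨m, y, hy⟩ := hVc n (p s)
    have hpX : p s ∈ X' := (hp s hs.1).2
    have hy1 : {s | (F s ∩ V n m y).Nonempty} ∉ BdIdeal F (CC S) := by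
      intro h
      exact hpX n m (mem_iUnion₂.2 ⟨y, h, hy⟩)
    have hy2 : Pn n m y ∉ BdIdeal F (CC S) := by
      intro h
      apply hs.2
      refine mem_iUnion.2 ⟨(n, m), mem_iUnion.2 ⟨⟨y, hy1⟩, ?_⟩⟩
      rw [if_pos h]
      exact ⟨hs.1, hy⟩
    obtain ⟨k, hk⟩ := hB (mem_iUnion.2 ⟨(n, m), mem_image_of_mem _ hy2⟩)
    refine ⟨k, ?_, ?_⟩
    · change B k ⊆ O
      rw [hk]
      intro x hx
      apply hball
      rw [Metric.mem_ball]
      exact lt_of_le_of_lt (hVs n m y x hx (p s) hy) hn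
    · rw [hk]; exact hy

end Pool.L5helper54.BA
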