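import Pool.Agent.L5helper54.BA.Hier

set_option autoImplicit false
open Cardinal Set

namespace Pool.L5helper54.BA

universe u

/-- (A6) the members of a point-finite additive family indexed by `ω₁` are of bounded class -/
theorem members_bounded {X : Type u} {S : Type u} (F : S → Set X)
    (pf : ∀ x, {s | x ∈ F s}.Finite) {C : Ordinal.{0} → Set (Set X)} (hC : Hier C)
    (bor : ∀ T : Set S, ∃ α < (aleph 1).ord, U F T ∈ C α)
    (T : (Iio ((aleph 1).ord : Ordinal.{0})) → Set S)
    (hT : Pairwise (Function.onFun Disjoint T)) :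
    ∃ α < (aleph 1).ord, ∀ i, U F (T i) ∈ C α := by
  classical
  -- an injection of `ω₁` into the Cantor space
  have h2 : #(((aleph 1).ord : Ordinal.{0}).ToType) ≤ #(ℕ → Bool) := by
    rw [mk_ord_toType]
    simpa using aleph_one_le_continuum
  obtain ⟨e⟩ := h2
  let r : Iio ((aleph 1).ord : Ordinal.{0}) → ℕ → Bool := fun i => e (Ordinal.ToType.mk i)
  have hr : Function.Injective r := e.injective.comp (Ordinal.ToType.mk).injective
  -- the sets of a finite string
  let V : (Σ n : ℕ, Fin n → Bool) → Set S := fun σ =>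
    {s | ∃ j, (∀ k : Fin σ.1, r j k = σ.2 k) ∧ s ∈ T j}
  choose a ha ha' using fun σ => bor (V σ)
  obtain ⟨α, hα, hle⟩ := sup_lt a ha
  refine ⟨α + 2, add_two_lt hα, fun i => ?_⟩
  have key : U F (T i) = ⋂ n : ℕ, U F (V ⟨n, fun k => r i k⟩) := by
    ext x
    simp only [mem_iInter, mem_U]
    constructor
    · rintro ⟨s, hs, hx⟩ n
      exact ⟨s, ⟨i, fun k => rfl, hs⟩, hx⟩
    · intro h
      choose s hs hx using h
      choose j hj hsj using hs
      -- infinitely many `s n` are equal
      obtain ⟨s₀, hs₀⟩ : ∃ s₀, {n | s n = s₀}.Infinite := by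
        by_contra hno
        push Not at hno
        have : (Set.univ : Set ℕ) ⊆ ⋃ t ∈ {t | x ∈ F t}, {n | s n = t} := by
          intro n _
          simp only [mem_iUnion]
          exact ⟨s n, hx n, rfl⟩
        exact Set.infinite_univ ((Set.Finite.biUnion (pf x) (fun t _ => hno t)).subset this)
      obtain ⟨n₀, hn₀⟩ := hs₀.nonempty
      refine ⟨s₀, ?_, by rw [← hn₀]; exact hx n₀⟩
      have heq : r (j n₀) = r i := by
        funext k
        obtain ⟨n, hn, hkn⟩ := hs₀.exists_gt k
        have hjn : j n = j n₀ := by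
          by_contra hne
          exact Set.disjoint_left.1 (hT hne) (hsj n) (by rw [hn, ← hn₀]; exact hsj n₀)
        have := hj n ⟨k, hkn⟩
        rw [hjn] at this
        exact this
      rw [← hr heq, ← hn₀]
      exact hsj n₀
  rw [key]
  exact hC.inter_mem _ hα fun n => hC.mono _ _ (hle _) (ha' _)

end Pool.L5helper54.BA
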